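import Mathlib
import Pool.Agent.R934.BC.Crit

/-!
# The Bass trace conjecture over the integers: transfinite lifting and critical quotients

`R` is a commutative domain in which no prime number is a unit (the integers, the ring of integers
of a number field). The starting result `LiftingOverIntegers` lifts the conjecture from `G / N` to
`G` if `N` has a FINITE series with unmixed or special factors. Here the conjecture is followed for
a single idempotent matrix `A` along the normal subgroups `M` of `G`: the rank of the image of `A`
over `G / M` becomes stationary along chains of normal subgroups, as `A` has finite support, so by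
Zorn's lemma there is a maximal `M` for which the image has a nonzero rank at an element of infinite
order. This gives the lifting theorem for transfinite series, in particular for all `N` in the
FC-hypercentre of `G`, and it reduces the conjecture to finitely generated groups with strong
properties (`Mixing`), which are not residually finite, have only infinite conjugacy classes apart
from `1`, and in which every nontrivial normal subgroup mixes fully divisible elements.
-/

set_option autoImplicit false

namespace Pool.Agent.Results.MP_7903c7_al.CriticalQuotients

open Pool.Agent.H26R2.Bass (BassFor NoUnitPrimes)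
open Pool.Agent.R934.BC (HyperLift Critical Mixing)

universe u v

/-- Let no prime number be a unit in the commutative domain `R`.
1. If `N` is a normal subgroup of `G` and every nontrivial quotient `N / M` (`M` normal in `G`)
contains a nontrivial normal subgroup of `G / M` that is unmixed or special, or contains a
nontrivial element with finitely many conjugates in `G / M` (`HyperLift N`), then the Bass trace conjecture for
`R` and `G / N` implies the conjecture for `R` and `G`.
2. If the conjecture fails for `R` and `G`, then a finitely generated subgroup `H` of `G` has a
quotient `Q` with an idempotent matrix `B` over `R[Q]` that has a nonzero rank at an element of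
infinite order, while the images of `B` over all proper quotients of `Q` have rank zero outside `1`;
and `Q` is mixing.
3. If the conjecture holds for `R` and all finitely generated mixing groups, it holds for `R` and
all groups. -/
theorem result (R : Type u) [CommRing R] [IsDomain R] (hR : NoUnitPrimes R) :
    (∀ (G : Type v) [Group G] (N : Subgroup G) [N.Normal], HyperLift N → BassFor R (G ⧸ N) →
      BassFor R G) ∧
    (∀ (G : Type v) [Group G], ¬ BassFor R G →
      ∃ (H : Subgroup G) (_ : H.FG) (M : Subgroup H) (_ : M.Normal) (n : ℕ)
        (B : Matrix (Fin n) (Fin n) (MonoidAlgebra R (H ⧸ M))),
        Critical R B ∧ Mixing (H ⧸ M)) ∧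
    ((∀ (Q : Type v) [Group Q], Group.FG Q → Mixing Q → BassFor R Q) →
      ∀ (G : Type v) [Group G], BassFor R G) := by
  refine ⟨?_, ?_, ?_⟩
  · intro G _ N _ hN hQ
    exact Pool.Agent.R934.BC.hyper_lift hR N (Pool.Agent.R934.BC.hyperUnmixed_of_lift N hN) hQ
  · intro G _ hG
    exact Pool.Agent.R934.BC.main hR hG
  · intro hQ G _
    by_contra hG
    obtain ⟨H, hH, M, hM, n, B, ⟨hB, ⟨x, hx0, hx⟩, -⟩, hmix⟩ := Pool.Agent.R934.BC.main hR hG
    have hfg : Group.FG H := (Group.fg_iff_subgroup_fg H).2 hH
    have hfgQ : Group.FG (H ⧸ M) := Group.fg_of_surjective (QuotientGroup.mk'_surjective M)
    refine hx (hQ (H ⧸ M) hfgQ hmix n B hB x ?_)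
    rw [hx0, Nat.cast_zero]
    exact not_isUnit_zero

end Pool.Agent.Results.MP_7903c7_al.CriticalQuotients
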