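import Pool.Agent.R719.WD.Idm

set_option autoImplicit false

/-! The Bass trace conjecture over `ℤ`, for every group, for the idempotent matrices `A` such that
each row of the reflection `1 - 2A` is dominated by one coefficient, with respect to positive weights
of the columns. -/

namespace Pool.Agent.Results.MP_7903c7_al.DominatedReflections

open Matrix

section defs

variable {G : Type} [Group G]

/-- the sum of the absolute values of the coefficients -/
def norm1 (x : MonoidAlgebra ℤ G) : ℕ := ∑ g ∈ x.coeff.support, (x.coeff g).natAbs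

/-- Weighted dominance up to a permutation `σ` of the columns and group elements `γ i`, with weights
`p j > 0`: the coefficient of `γ i` in the entry at `(i, σ i)`, in absolute value and times `p (σ i)`,
is at least the weighted sum of the absolute values of all other coefficients in row `i`. -/
def WeightedDominantUpToMonomial {n : ℕ} (S : Matrix (Fin n) (Fin n) (MonoidAlgebra ℤ G)) : Prop :=
  ∃ (σ : Fin n ≃ Fin n) (γ : Fin n → G) (p : Fin n → ℝ), (∀ j, 0 < p j) ∧ ∀ i,
    (∑ j, (norm1 (S i j) : ℝ) * p j) - |((S i (σ i)).coeff (γ i) : ℝ)| * p (σ i)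
      ≤ |((S i (σ i)).coeff (γ i) : ℝ)| * p (σ i)

/-- the Hattori-Stallings rank `τ_A(g)` -/
noncomputable def tau {n : ℕ} (A : Matrix (Fin n) (Fin n) (MonoidAlgebra ℤ G)) (g : G) : ℤ :=
  ∑ i : Fin n, ∑ᶠ (h : G) (_ : IsConj h g), (A i i).coeff h

end defs

open Pool.Agent.Y35.KC.TTm Pool.Agent.R719.DD
  Pool.Agent.R719.WD in
theorem result (G : Type) [Group G] (n : ℕ) (A : Matrix (Fin n) (Fin n) (MonoidAlgebra ℤ G))
    (hA : A * A = A) (h : WeightedDominantUpToMonomial (1 - 2 * A)) :
    (∀ i g, g ≠ 1 → (A i i).coeff g = 0) ∧ (∀ g, g ≠ 1 → tau A g = 0) ∧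
    ∃ (I : Finset (Fin n)) (X : (Matrix (Fin n) (Fin n) (MonoidAlgebra ℤ G))ˣ),
      X.val * A * X⁻¹.val = Matrix.diagonal (fun i => if i ∈ I then 1 else 0) ∧
      tau A 1 = I.card := by
  classical
  obtain ⟨σ, g, p, hp, hg⟩ := h
  have h1 : Blk A := blk_idem A hA σ g p hp (fun i => by
    have h2 := hg i
    have h3 : ∑ j, (l1 ((rfl2 A hA).val i j) : ℝ) * p j
        = ∑ j, (norm1 ((1 - 2 * A : Matrix (Fin n) (Fin n) (MonoidAlgebra ℤ G)) i j) : ℝ) * p j :=
      rfl
    have h4 : (((rfl2 A hA).val i (σ i)).coeff (g i) : ℝ)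
        = (((1 - 2 * A : Matrix (Fin n) (Fin n) (MonoidAlgebra ℤ G)) i (σ i)).coeff (g i) : ℝ) :=
      rfl
    rw [h3, h4]
    linarith)
  obtain ⟨X, I, hX⟩ := conj_blk A hA h1
  obtain ⟨r, w, hr1, hr2⟩ := h1
  have h5 : ∀ i g, g ≠ 1 → (A i i).coeff g = 0 := by
    intro i g hg
    by_contra h6
    exact hg (by rw [hr2 i i rfl g h6, mul_inv_cancel])
  have h7 : ∀ g, g ≠ 1 → tau A g = 0 := by
    intro g hg
    refine Finset.sum_eq_zero fun i _ => ?_
    refine finsum_mem_eq_zero_of_forall_eq_zero fun h hh => h5 i h ?_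
    rintro rfl
    exact hg (isConj_one_right.1 hh)
  refine ⟨h5, h7, I, X, hX, ?_⟩
  have h8 : tau A 1 = (A.map augZ).trace := by
    unfold tau
    rw [Matrix.trace]
    refine Finset.sum_congr rfl fun i _ => ?_
    have e1 : ∑ᶠ (h : G) (_ : IsConj h 1), (A i i).coeff h = (A i i).coeff 1 := by
      have e2 : ∀ h : G, (∑ᶠ (_ : IsConj h 1), (A i i).coeff h)
          = if h = 1 then (A i i).coeff 1 else 0 := by
        intro h
        by_cases hh : h = 1
        · subst hh
          rw [if_pos rfl, finsum_eq_if, if_pos (IsConj.refl _)]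
        · rw [if_neg hh, finsum_eq_if, if_neg (fun h9 => hh (isConj_one_left.1 h9))]
      rw [finsum_congr e2, finsum_eq_single _ 1 (fun h hh => if_neg hh), if_pos rfl]
    rw [e1]
    have e3 : A i i = MonoidAlgebra.single 1 ((A i i).coeff 1) := by
      ext x
      by_cases hx : x = 1
      · subst hx; simp
      · rw [h5 i x hx, MonoidAlgebra.coeff_single, Finsupp.single_apply, if_neg (Ne.symm hx)]
    have e4 : augZ (MonoidAlgebra.single (1 : G) ((A i i).coeff 1)) = (A i i).coeff 1 := by
      change MonoidAlgebra.lift ℤ ℤ G (1 : G →* ℤ) _ = _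
      simp
    change _ = augZ (A i i)
    rw [e3, e4]
    simp
  have h9 : (X.val * A * X⁻¹.val).map augZ = X.val.map augZ * A.map augZ * X⁻¹.val.map augZ := by
    rw [Matrix.map_mul, Matrix.map_mul]
  have h10 : X⁻¹.val.map augZ * X.val.map augZ = 1 := by
    rw [← Matrix.map_mul, X.inv_mul]
    exact Matrix.map_one _ (map_zero augZ) (map_one augZ)
  have h11 : (A.map augZ).trace = ((X.val * A * X⁻¹.val).map augZ).trace := by
    rw [h9, Matrix.trace_mul_comm, ← Matrix.mul_assoc, h10, Matrix.one_mul]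
  rw [h8, h11, hX, Matrix.diagonal_map (map_zero augZ), Matrix.trace_diagonal]
  have h12 : ∀ i : Fin n, augZ (if i ∈ I then (1 : MonoidAlgebra ℤ G) else 0)
      = if i ∈ I then 1 else 0 := by
    intro i
    by_cases hi : i ∈ I
    · rw [if_pos hi, if_pos hi, map_one]
    · rw [if_neg hi, if_neg hi, map_zero]
  simp only [h12]
  simp

end Pool.Agent.Results.MP_7903c7_al.DominatedReflections
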