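import Mathlib
import Pool.Agent.R701.Bass.One
import Pool.Agent.R701.Bass.Fld
import Pool.Agent.R701.Bass.Rng

set_option autoImplicit false

namespace Pool.Agent.Results.MP_7903c7_al.OneGroup

universe u v

/-- The Bass trace conjecture for the ring `R` and the group `G`. -/
def BassFor (R : Type u) [CommRing R] (G : Type v) [Group G] : Prop :=
  ∀ (k : ℕ) (A : Matrix (Fin k) (Fin k) (MonoidAlgebra R G)), A * A = A →
    ∀ g : G, ¬ IsUnit ((orderOf g : ℕ) : R) →
      ∑ i : Fin k, ∑ᶠ (h : G) (_ : IsConj h g), (A i i).coeff h = 0

/-- The Bass trace conjecture for the prime field with `p` elements, the group `G` and its elements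
of infinite order. -/
def BassInf (p : ℕ) (G : Type v) [Group G] : Prop :=
  ∀ (k : ℕ) (A : Matrix (Fin k) (Fin k) (MonoidAlgebra (ZMod p) G)), A * A = A →
    ∀ g : G, orderOf g = 0 → ∑ i : Fin k, ∑ᶠ (h : G) (_ : IsConj h g), (A i i).coeff h = 0

open Pool.Agent.H26R2.Bass (tau tau_eq ind tf_zero_of_finite)
open Pool.Agent.H23R2.Cyc (tf)
open Pool.Agent.R701.Bass

/-- **Theorem.** There is one group `L` with two generators which decides the Bass trace conjecture
for all groups:
1. for every commutative domain `R`, the conjecture for `R` and `L` implies the conjecture for `R`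
and all groups;
2. for every prime `p`, the conjecture for the elements of infinite order of `L` over the field with
`p` elements implies the conjecture for all commutative domains of characteristic `p` and all groups;
3. the conjecture for the elements of infinite order of `L` over the field with `p` elements, for
infinitely many primes `p`, implies the conjecture for all commutative domains of characteristic
zero and all groups. -/
theorem result : ∃ (L : Type) (_ : Group L), (∃ a b : L, Subgroup.closure {a, b} = ⊤) ∧
    (∀ (R : Type u) [CommRing R] [IsDomain R], BassFor R L →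
      ∀ (G : Type v) [Group G], BassFor R G) ∧
    (∀ p : ℕ, p.Prime → BassInf p L → ∀ (R : Type u) [CommRing R] [IsDomain R] [CharP R p]
      (G : Type v) [Group G], BassFor R G) ∧
    ((∀ m : ℕ, ∃ p : ℕ, m < p ∧ p.Prime ∧ BassInf p L) →
      ∀ (R : Type u) [CommRing R] [IsDomain R] [CharZero R] (G : Type v) [Group G],
        BassFor R G) := by
  obtain ⟨L, _, hL, hι⟩ := exists_universal
  -- from finite fields to the group `L`
  have key : ∀ p : ℕ, p.Prime → BassInf p L → ∀ (n : ℕ) (G : Type v) [Group G] (g : G),
      orderOf g = 0 → ¬ Reach.{u, v} p n g := by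
    intro p hp hpL n G _ g hg0 h
    have : Fact p.Prime := ⟨hp⟩
    obtain ⟨F, _, _, _, B, hB, hne⟩ := h
    obtain ⟨k, C, h, hC, hh0, hh⟩ := to_prime_field (p := p) B hB g hne hg0
    obtain ⟨D, l, hD, hl0, hl⟩ := to_universal hι C hC h hh hh0
    apply hl
    rw [← tau_eq]
    exact hpL k D hD l hl0
  refine ⟨L, inferInstance, hL, ?_, ?_, ?_⟩
  · intro R _ _ hR G _ k A hA g hg
    change tau A g = 0
    rw [tau_eq]
    by_cases hfin : orderOf g = 0
    · by_contra hne
      obtain ⟨D, l, hD, hl0, hl⟩ := to_universal hι A hA g hne hfin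
      apply hl
      rw [← tau_eq]
      refine hR k D hD l ?_
      rw [hl0, Nat.cast_zero]
      exact not_isUnit_zero
    · exact tf_zero_of_finite A hA g hfin hg
  · intro p hp hpL R _ _ hRp G _ k A hA g hg
    change tau A g = 0
    rw [tau_eq]
    by_cases hfin : orderOf g = 0
    · by_contra hne
      exact key p hp hpL k G g hfin ((reach A hA g hne).2 p hp hRp)
    · exact tf_zero_of_finite A hA g hfin hg
  · intro hpL R _ _ h0 G _ k A hA g hg
    change tau A g = 0
    rw [tau_eq]
    by_cases hfin : orderOf g = 0
    · by_contra hne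
      obtain ⟨N, hN, hNp⟩ := (reach A hA g hne).1 h0
      obtain ⟨p, hpN, hp, hpL⟩ := hpL N
      exact key p hp hpL k G g hfin (hNp p hp fun h => absurd (Nat.le_of_dvd
        (Nat.pos_of_ne_zero hN) h) (by omega))
    · exact tf_zero_of_finite A hA g hfin hg

end Pool.Agent.Results.MP_7903c7_al.OneGroup
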