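import Mathlib
import Pool.Agent.R934.BC.Trans

/-!
# The Bass trace conjecture over any domain for groups with transfinite series of good factors

The starting developments (`Pool.Agent.H26R2.Bass`) prove the Bass trace conjecture for groups with
a FINITE series of normal subgroups whose factors are good. Here the series is replaced by the
condition that every nontrivial quotient has a good normal subgroup, that is, by an ascending normal
series of arbitrary ordinal length whose terms may be chosen after passing to quotients. Proof: for
an element `h` of infinite order with a power in `N` choose a maximal normal subgroup `M` of `G`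
contained in `N` without powers of `h` (Zorn); then `h` has a power in the next good factor `L / M`,
and the finite argument applies to this factor.
-/

set_option autoImplicit false

namespace Pool.Agent.Results.MP_7903c7_al.TransfiniteSeries

open Pool.Agent.H26R2.Bass (BassFor)
open Pool.Agent.H26R2.IdemLI (FinRankAb)
open Pool.Agent.R934.BC (HyperGood TransAdmissible)

universe u v

/-- 1. The Bass trace conjecture holds for the commutative domain `R` and the group `G` if `G`, or
every finitely generated subgroup in place of `G`, is transfinitely admissible.
2. In particular it holds if every quotient `G / M ≠ 1` has a normal subgroup `L / M ≠ 1` that is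
periodic, or has finite conjugacy classes in `G / M`, or is abelian of finite rank; the last
alternative is allowed if `R` has characteristic zero. -/
theorem result :
    (∀ (R : Type u) [CommRing R] [IsDomain R] (G : Type v) [Group G],
      (TransAdmissible R G ∨ ∀ H : Subgroup G, H.FG → TransAdmissible R H) → BassFor R G) ∧
    (∀ (R : Type u) [CommRing R] [IsDomain R] (G : Type v) [Group G],
      (∀ (M : Subgroup G) [M.Normal], M ≠ ⊤ → ∃ (L : Subgroup G) (_ : L.Normal), M < L ∧
        ((∀ x ∈ L, ∃ n : ℕ, 0 < n ∧ x ^ n ∈ M) ∨
          (∀ a ∈ L.map (QuotientGroup.mk' M), {b | IsConj a b}.Finite) ∨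
          (CharZero R ∧ FinRankAb (L.map (QuotientGroup.mk' M))))) →
      BassFor R G) := by
  refine ⟨fun R _ _ G _ hG => Pool.Agent.R934.BC.bass_trans hG, ?_⟩
  intro R _ _ G _ hG
  refine Pool.Agent.R934.BC.bass_trans (Or.inl ⟨⊤, ?_, ?_⟩)
  · intro M hM hlt
    obtain ⟨L, hL, hML, h⟩ := hG M hlt.ne
    refine ⟨L, hL, hML, le_top, ?_⟩
    rcases h with h | h | ⟨h0, h⟩
    · exact Or.inl h
    · exact Or.inr (Or.inl h)
    · exact Or.inr (Or.inr (Or.inr (Or.inr ⟨h0, Or.inl h⟩)))
  · intro H _ h hno
    exact absurd (Subgroup.mem_top _) (hno 1 one_pos)

end Pool.Agent.Results.MP_7903c7_al.TransfiniteSeries
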